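import Pool.Agent.helper83.LS.Spec2

set_option autoImplicit false

namespace LSH

theorem CCP_dbl : ∀ b : BT, dbl 2 b → dbl 3 b := by
  intro b h
  rcases b with _ | b | ⟨a, b⟩
  · exact h
  · rcases b with _ | b | ⟨a, b⟩
    · exact h
    · rcases b with _ | b | ⟨a, b⟩
      · exact h
      · exact absurd h (by simp [dbl])
      · exact h
    · exact h
  · exact h

theorem CCP (hCC : CC_stmt) (hRL1 : RL1_stmt) (hRL3 : RL3_stmt) : CCP_stmt := by
  intro t ht
  induction ht with
  | base t h => exact (hCC t h).1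
  | un t _ ih => exact hRL1.2 t ih
  | brl a b _ hb hd ih =>
    exact (hRL3 a b ih ((hCC b hb).2.1 (fun h => hd (CCP_dbl b h)))).1
  | brr a b ha hd _ ih =>
    exact (hRL3 b a ih ((hCC a ha).2.1 (fun h => hd (CCP_dbl a h)))).2

end LSH
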