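import Pool.Agent.helper83.LS.Spec

set_option autoImplicit false

/-!
# EE: the edges of a placed tree join points of the tree
-/

namespace LSH

theorem EE_root (d : PT) : d.root ∈ d.pts := by
  cases d <;> simp [PT.root, PT.pts]

theorem EE_edges (d : PT) : ∀ e : Edge, e ∈ d.edges → e.a ∈ d.pts ∧ e.b ∈ d.pts := by
  induction d with
  | leaf x => intro e he; simp [PT.edges] at he
  | un x h t ih =>
    intro e he
    simp only [PT.edges, List.mem_cons] at he
    simp only [PT.pts, Multiset.mem_cons]
    rcases he with rfl | he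
    · exact ⟨Or.inl rfl, Or.inr (EE_root t)⟩
    · exact ⟨Or.inr (ih e he).1, Or.inr (ih e he).2⟩
  | br x h s k t ih1 ih2 =>
    intro e he
    simp only [PT.edges, List.mem_cons, List.mem_append] at he
    simp only [PT.pts, Multiset.mem_cons, Multiset.mem_add]
    rcases he with (rfl | he) | (rfl | he)
    · exact ⟨Or.inl rfl, Or.inr (Or.inl (EE_root s))⟩
    · exact ⟨Or.inr (Or.inl (ih1 e he).1), Or.inr (Or.inl (ih1 e he).2)⟩
    · exact ⟨Or.inl rfl, Or.inr (Or.inr (EE_root t))⟩
    · exact ⟨Or.inr (Or.inr (ih2 e he).1), Or.inr (Or.inr (ih2 e he).2)⟩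

theorem EE_card (d : PT) : Multiset.card d.pts = d.shape.size := by
  induction d with
  | leaf x => simp [PT.pts, PT.shape, BT.size]
  | un x h t ih => simp [PT.pts, PT.shape, BT.size, ih]
  | br x h s k t ih1 ih2 => simp [PT.pts, PT.shape, BT.size, ih1, ih2]

theorem EE_ne (d : PT) : d.pts.Nodup → ∀ e ∈ d.edges, e.a ≠ e.b := by
  induction d with
  | leaf x => intro _ e he; simp [PT.edges] at he
  | un x h t ih =>
    intro hn e he
    simp only [PT.pts, Multiset.nodup_cons] at hn
    simp only [PT.edges, List.mem_cons] at he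
    rcases he with rfl | he
    · intro h0
      simp only at h0
      exact hn.1 (h0 ▸ EE_root t)
    · exact ih hn.2 e he
  | br x h s k t ih1 ih2 =>
    intro hn e he
    simp only [PT.pts, Multiset.nodup_cons, Multiset.mem_add, not_or] at hn
    obtain ⟨⟨hs, ht⟩, hn2⟩ := hn
    rw [Multiset.nodup_add] at hn2
    simp only [PT.edges, List.mem_cons, List.mem_append] at he
    rcases he with (rfl | he) | (rfl | he)
    · intro h0
      simp only at h0
      exact hs (h0 ▸ EE_root s)
    · exact ih1 hn2.1 e he
    · intro h0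
      simp only at h0
      exact ht (h0 ▸ EE_root t)
    · exact ih2 hn2.2.1 e he

theorem EE : EE_stmt := ⟨EE_edges, EE_root, EE_card, EE_ne⟩

end LSH
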