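import Pool.Agent.helper83.LS.Spec

set_option autoImplicit false

/-!
# SEP: separated edges do not meet
-/

namespace LSH

theorem SEP : SEP_stmt := by
  intro e f c
  refine ⟨fun h1 h2 => ?_, fun h1 h2 => ?_, fun h1 h2 => ?_, fun h1 h2 => ?_⟩
  · intro z he hf
    exact absurd (h1 z he) (not_le.2 (h2 z hf))
  · intro z he hf
    exact absurd (h1 z he) (not_lt.2 (h2 z hf))
  · intro z he hf
    exact absurd (h1 z he) (not_le.2 (h2 z hf))
  · intro z he hf
    exact absurd (h1 z he) (not_lt.2 (h2 z hf))

end LSH
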